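import Pool.Agent.Helper42.PW.Goals3
import Pool.Agent.Helper38.FD.Split
import Pool.Agent.Helper13.RL.GOO2
import Pool.Agent.Helper13.RL.GOO3
import Pool.Agent.Helper30.RL.SQR
import Pool.Agent.Helper48.PPB.GL1A
import Pool.Agent.Helper56.PPB.BSPA
import Pool.Agent.Helper85.PPB.BNIN
import Pool.Agent.Helper96.PPB.BSTB
import Pool.Agent.Helper3.PPB.BTOR
import Pool.Agent.Helper79.PP.PVIS
import Pool.Agent.Helper22.PP.DPRD

/-! Project W: W_GL1, a trivial twisted Selmer group implies the statement, `χ₀ ≠ 1`. -/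

set_option autoImplicit false

namespace Pool.Agent.Helper74.PW

open NumberField Polynomial Module IsDedekindDomain Pool.Agent.Helper51.SigLeo
open Pool.Agent.Helper51.RP Pool.Agent.Helper42.RD Pool.Agent.Helper11.LE Pool.Agent.Helper11.PP
open Pool.Agent.Helper77.RL (Sqr SplitAt)
open Pool.Agent.Helper38.FD
open Pool.Agent.Helper77.PPB (CondW)
open Pool.Agent.Helper42.PW
open Pool.Agent.Helper48.PPB (finrank_sup_pow finrank_sup_cut gen_sup gen_sup3)
open Pool.Agent.Helper40.RS (bel)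
open Pool.Agent.Helper79.PP (fix_of_free)
open Pool.Agent.Helper22.PP (bel_bel)

/-- A place which splits completely in `F₁` splits completely in `J E F₁`, if the primes of `J` and `E`
above `p` have trivial decomposition groups. -/
theorem splF_sup {p : ℕ} [Fact p.Prime] {K : Type} [Field K] [NumberField K]
    {F J E F₁ : IntermediateField K (AlgebraicClosure K)} [NumberField F] [NumberField J]
    [NumberField E] [NumberField F₁] [IsGalois K F] [IsGalois K J] [IsGalois K E] [IsGalois K F₁]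
    (hF : F ≤ J ⊔ (E ⊔ F₁)) (hJF : J ≤ F) (hEF : E ≤ F) (hF₁F : F₁ ≤ F)
    (hJf : ∀ v : HeightOneSpectrum (𝓞 K), (p : 𝓞 K) ∈ v.asIdeal →
      ∀ V : HeightOneSpectrum (𝓞 J), Above V v → FreeP K V)
    (hEf : ∀ v : HeightOneSpectrum (𝓞 K), (p : 𝓞 K) ∈ v.asIdeal →
      ∀ V : HeightOneSpectrum (𝓞 E), Above V v → FreeP K V)
    {σ : K →+* ℂ_[p]} (hσ : SplF σ F₁) : SplF σ F := by
  intro V hV g hg
  have hp := (Fact.out : p.Prime)
  let _ : Algebra J F := (IntermediateField.inclusion hJF).toRingHom.toAlgebra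
  let _ : Algebra E F := (IntermediateField.inclusion hEF).toRingHom.toAlgebra
  let _ : Algebra F₁ F := (IntermediateField.inclusion hF₁F).toRingHom.toAlgebra
  have tJ : IsScalarTower K J F := IsScalarTower.of_algebraMap_eq fun x ↦ rfl
  have tE : IsScalarTower K E F := IsScalarTower.of_algebraMap_eq fun x ↦ rfl
  have tF₁ : IsScalarTower K F₁ F := IsScalarTower.of_algebraMap_eq fun x ↦ rfl
  have hpv : (p : 𝓞 K) ∈ (bel K V).asIdeal := by
    show algebraMap (𝓞 K) (𝓞 F) (p : 𝓞 K) ∈ V.asIdeal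
    rw [hV]
    have e : σ (((p : 𝓞 K) : 𝓞 K) : K) = (p : ℂ_[p]) := by
      have e0 : (((p : 𝓞 K) : 𝓞 K) : K) = (p : K) := map_natCast (algebraMap (𝓞 K) K) p
      rw [e0, map_natCast]
    rw [e, Pool.Agent.Helper42.RD.norm_p, div_lt_one (by exact_mod_cast hp.pos)]
    exact_mod_cast hp.one_lt
  have hfJ : FreeP K (bel J V) := hJf (bel K V) hpv (bel J V)
    (congrArg HeightOneSpectrum.asIdeal (bel_bel (K := K) (N := J) V))
  have hfE : FreeP K (bel E V) := hEf (bel K V) hpv (bel E V)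
    (congrArg HeightOneSpectrum.asIdeal (bel_bel (K := K) (N := E) V))
  have hfF₁ : FreeP K (bel F₁ V) := by
    refine hσ (bel F₁ V) fun x ↦ ?_
    rw [← hV x]
    show algebraMap (𝓞 F₁) (𝓞 F) (algebraMap (𝓞 K) (𝓞 F₁) x) ∈ V.asIdeal ↔ _
    rw [← IsScalarTower.algebraMap_apply]
  refine gen_sup3 (A := J) (B := E) (C := F₁) hF g ?_ ?_ ?_ hJF hEF hF₁F
  · intro x hx
    exact congrArg Subtype.val (fix_of_free (K := K) (A := J) V hfJ g hg ⟨x, hx⟩)
  · intro x hx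
    exact congrArg Subtype.val (fix_of_free (K := K) (A := E) V hfE g hg ⟨x, hx⟩)
  · intro x hx
    exact congrArg Subtype.val (fix_of_free (K := K) (A := F₁) V hfF₁ g hg ⟨x, hx⟩)

/-- **W_GL1**. -/
theorem w_gl1 (h1 : W_TRV) (h2 : W_PRM) (h3 : W_CO1) : W_GL1 := by
  intro p hpf K _ _ ιinf ιp Lg S hcl M M₁ J M₂ _ _ _ _ _ _ _ _ hMM₂ hMM₁ hM₂ hcop hJ hJf χM hχM
    δ Φ P hδ hPhi hTor hnsp χ₀ ψ₁ ψ hχ₀ F₁ _ _ hF₁c hψl hψp hT ε α hε hεM₁ hOm hnp hgen hSel E _ _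
    hcut hE hgE hEf hEt hEu
  have hp := hpf.out
  have hfM : FiniteDimensional K M := FiniteDimensional.right ℚ K M
  have hfM₁ : FiniteDimensional K M₁ := FiniteDimensional.right ℚ K M₁
  have hfJ : FiniteDimensional K J := FiniteDimensional.right ℚ K J
  have hfE : FiniteDimensional K E := FiniteDimensional.right ℚ K E
  have hfF₁ : FiniteDimensional K F₁ := FiniteDimensional.right ℚ K F₁
  have hgΩ : IsGalois K (AlgebraicClosure K) := inferInstance
  -- the fields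
  obtain ⟨L₀, hL₀⟩ : ∃ L₀ : IntermediateField K (AlgebraicClosure K), L₀ = J ⊔ E := ⟨_, rfl⟩
  have hJL : J ≤ L₀ := by rw [hL₀]; exact le_sup_left
  have hEL : E ≤ L₀ := by rw [hL₀]; exact le_sup_right
  obtain ⟨n, hn⟩ := finrank_sup_pow hp hJ hE
  rw [← hL₀] at hn
  have hgL : IsGalois K L₀ := by rw [hL₀]; infer_instance
  have hfL : FiniteDimensional K L₀ := FiniteDimensional.of_finrank_pos (by
    rw [hn]; exact pow_pos hp.pos n)
  have hnfL : NumberField L₀ := NumberField.of_module_finite K L₀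
  obtain ⟨F, hF⟩ : ∃ F : IntermediateField K (AlgebraicClosure K), F = L₀ ⊔ F₁ := ⟨_, rfl⟩
  have hLF : L₀ ≤ F := by rw [hF]; exact le_sup_left
  have hF₁F : F₁ ≤ F := by rw [hF]; exact le_sup_right
  have hgF : IsGalois K F := by rw [hF]; infer_instance
  have hfF : FiniteDimensional K F := by rw [hF]; infer_instance
  have hnfF : NumberField F := NumberField.of_module_finite K F
  have hdF : finrank K F = p ^ (n + 1) := by
    rw [hF]
    exact finrank_sup_cut hp hn ψ₁ hF₁c (fun g hg ↦ hψp g fun x hx ↦ hg x (hJL hx))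
      (by rw [hL₀]; exact hgE)
  obtain ⟨M', hM'⟩ : ∃ M' : IntermediateField K (AlgebraicClosure K), M' = M ⊔ L₀ := ⟨_, rfl⟩
  obtain ⟨N₂, hN₂⟩ : ∃ N₂ : IntermediateField K (AlgebraicClosure K), N₂ = M₁ ⊔ L₀ := ⟨_, rfl⟩
  have hMM' : M ≤ M' := by rw [hM']; exact le_sup_left
  have hLM' : L₀ ≤ M' := by rw [hM']; exact le_sup_right
  have hM₁N : M₁ ≤ N₂ := by rw [hN₂]; exact le_sup_left
  have hLN : L₀ ≤ N₂ := by rw [hN₂]; exact le_sup_right
  have hM₁M₂ : M₁ ≤ M₂ := by rw [hM₂]; exact le_sup_left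
  have hJM₂ : J ≤ M₂ := by rw [hM₂]; exact le_sup_right
  have hM₂N : M₂ ≤ N₂ := by rw [hM₂]; exact sup_le hM₁N (hJL.trans hLN)
  have hM'N : M' ≤ N₂ := by rw [hM']; exact sup_le (hMM₁.trans hM₁N) hLN
  have hfM' : FiniteDimensional K M' := by rw [hM']; infer_instance
  have hfN : FiniteDimensional K N₂ := by rw [hN₂]; infer_instance
  have hgM' : IsGalois K M' := by rw [hM']; infer_instance
  have hgN : IsGalois K N₂ := by rw [hN₂]; infer_instance
  have hgM₂ : IsGalois K M₂ := by rw [hM₂]; infer_instance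
  have hnfM' : NumberField M' := NumberField.of_module_finite K M'
  have hnfN : NumberField N₂ := NumberField.of_module_finite K N₂
  -- algebras
  let _ : Algebra M M₁ := (IntermediateField.inclusion hMM₁).toRingHom.toAlgebra
  let _ : Algebra M₁ M₂ := (IntermediateField.inclusion hM₁M₂).toRingHom.toAlgebra
  let _ : Algebra M M' := (IntermediateField.inclusion hMM').toRingHom.toAlgebra
  let _ : Algebra L₀ M' := (IntermediateField.inclusion hLM').toRingHom.toAlgebra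
  let _ : Algebra J M' := (IntermediateField.inclusion (hJL.trans hLM')).toRingHom.toAlgebra
  let _ : Algebra E M' := (IntermediateField.inclusion (hEL.trans hLM')).toRingHom.toAlgebra
  let _ : Algebra M N₂ := (IntermediateField.inclusion (hMM'.trans hM'N)).toRingHom.toAlgebra
  let _ : Algebra M₁ N₂ := (IntermediateField.inclusion hM₁N).toRingHom.toAlgebra
  let _ : Algebra L₀ N₂ := (IntermediateField.inclusion hLN).toRingHom.toAlgebra
  let _ : Algebra M₂ N₂ := (IntermediateField.inclusion hM₂N).toRingHom.toAlgebra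
  let _ : Algebra M' N₂ := (IntermediateField.inclusion hM'N).toRingHom.toAlgebra
  let _ : Algebra E N₂ := (IntermediateField.inclusion (hEL.trans hLN)).toRingHom.toAlgebra
  have tKMM₂ : IsScalarTower K M M₂ := IsScalarTower.of_algebraMap_eq fun x ↦ by
    apply Subtype.ext
    rw [hMM₂]
    rfl
  have tKMM' : IsScalarTower K M M' := IsScalarTower.of_algebraMap_eq fun x ↦ rfl
  have tKLM' : IsScalarTower K L₀ M' := IsScalarTower.of_algebraMap_eq fun x ↦ rfl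
  have tKJM' : IsScalarTower K J M' := IsScalarTower.of_algebraMap_eq fun x ↦ rfl
  have tKEM' : IsScalarTower K E M' := IsScalarTower.of_algebraMap_eq fun x ↦ rfl
  have tKM₁N : IsScalarTower K M₁ N₂ := IsScalarTower.of_algebraMap_eq fun x ↦ rfl
  have tKLN : IsScalarTower K L₀ N₂ := IsScalarTower.of_algebraMap_eq fun x ↦ rfl
  have tKM₂N : IsScalarTower K M₂ N₂ := IsScalarTower.of_algebraMap_eq fun x ↦ rfl
  have tKM'N : IsScalarTower K M' N₂ := IsScalarTower.of_algebraMap_eq fun x ↦ rfl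
  have tKEN : IsScalarTower K E N₂ := IsScalarTower.of_algebraMap_eq fun x ↦ rfl
  have tMM₁N : IsScalarTower M M₁ N₂ := IsScalarTower.of_algebraMap_eq fun x ↦ rfl
  have tMM'N : IsScalarTower M M' N₂ := IsScalarTower.of_algebraMap_eq fun x ↦ rfl
  have tLM'N : IsScalarTower L₀ M' N₂ := IsScalarTower.of_algebraMap_eq fun x ↦ rfl
  have tM₁M₂N : IsScalarTower M₁ M₂ N₂ := IsScalarTower.of_algebraMap_eq fun x ↦ rfl
  have tMM₂N : IsScalarTower M M₂ N₂ := IsScalarTower.of_algebraMap_eq fun x ↦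
    Subtype.ext (hMM₂ x).symm
  -- the squares
  have hcM : (finrank K M).Coprime p :=
    hcop.coprime_dvd_left (IntermediateField.finrank_dvd_of_le_right hMM₁)
  have hq1 : Sqr p n K M L₀ M' :=
    Pool.Agent.Helper13.RL.sqr_sup' hM' (fun x ↦ rfl) (fun x ↦ rfl) inferInstance hgL hcM hn
  have hq2 : Sqr p n K M₁ L₀ N₂ :=
    Pool.Agent.Helper13.RL.sqr_sup' hN₂ (fun x ↦ rfl) (fun x ↦ rfl) inferInstance hgL hcop hn
  obtain ⟨r1, r2, r3, r4, r5⟩ := Pool.Agent.Helper30.RL.l_sqr p n K M L₀ M' hq1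
  obtain ⟨s1, s2, s3, s4, -⟩ := Pool.Agent.Helper30.RL.l_sqr p n K M₁ L₀ N₂ hq2
  have hcN : (finrank M' N₂).Coprime p := by
    have e1 : finrank L₀ M' * finrank M' N₂ = finrank L₀ N₂ := Module.finrank_mul_finrank L₀ M' N₂
    rw [s2] at e1
    exact hcop.coprime_dvd_left (Dvd.intro_left _ e1)
  have hgM'N : IsGalois M' N₂ := IsGalois.tower_top_of_isGalois K M' N₂
  -- the automorphism
  obtain ⟨f, hf1, hf2⟩ := r5 δ 1
  obtain ⟨δL, hδL⟩ : ∃ δL : M' ≃ₐ[L₀] M', ∀ x, δL x = f x :=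
    ⟨AlgEquiv.ofRingEquiv (f := (f : M' ≃+* M')) fun y ↦ hf2 y, fun x ↦ rfl⟩
  have hδL' : ∀ x : M, δL (algebraMap M M' x) = algebraMap M M' (δ x) := fun x ↦ by
    rw [hδL, hf1]
  have hTorL : TorOK P δL := Pool.Agent.Helper3.PPB.b_tor p K M L₀ M' n r1 δ δL P hδL' hTor
  have hδm : δ ^ finrank K M = 1 := by rw [← hδ, pow_orderOf_eq_one]
  -- the hypotheses of `W_TRV`
  have hspl : ∀ τ' : M' →+* ℂ_[p], SplitAt M τ' := by
    refine Pool.Agent.Helper56.PPB.b_spa p K M J E M' ?_ hJf hEf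
    intro g g1 g2 g3
    refine gen_sup3 (A := M) (B := J) (C := E) (by rw [hM', hL₀]) g ?_ ?_ ?_ hMM'
      (hJL.trans hLM') (hEL.trans hLM')
    · intro x hx
      exact congrArg Subtype.val (g1 ⟨x, hx⟩)
    · intro x hx
      exact congrArg Subtype.val (g2 ⟨x, hx⟩)
    · intro x hx
      exact congrArg Subtype.val (g3 ⟨x, hx⟩)
  have hCond : CondV p K M M₂ N₂ (α : M₂) := by
    refine h2 p K M M₂ E N₂ ?_ (α : M₂) hEf hEt hEu
    intro g g1 g2
    refine gen_sup (A := M₂) (B := E) ?_ g ?_ ?_ hM₂N (hEL.trans hLN)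
    · rw [hN₂, hL₀]
      exact sup_le (hM₁M₂.trans le_sup_left) (sup_le (hJM₂.trans le_sup_left) le_sup_right)
    · intro x hx
      exact congrArg Subtype.val (g1 ⟨x, hx⟩)
    · intro x hx
      exact congrArg Subtype.val (g2 ⟨x, hx⟩)
  obtain ⟨ε₁, hε₁⟩ : ∃ ε₁ : M₁, algebraMap M₁ M₂ ε₁ = ε := ⟨⟨ε, hεM₁⟩, rfl⟩
  have hε₁p : IsPrimitiveRoot ε₁ p := by
    rw [← hε₁] at hε
    exact IsPrimitiveRoot.of_map_of_injective (f := algebraMap M₁ M₂) hε (RingHom.injective _)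
  have hst := Pool.Agent.Helper96.PPB.b_stb p n K M M₁ L₀ M' M₂ N₂ hq1 hq2 ε₁ (α : M₂) hε₁p
    (by rw [hε₁]; exact hOm)
  have hne : Nonempty (AlgebraicClosure ℚ →+* ℂ_[p]) :=
    Pool.Agent.Helper50.RS.nonempty_hom ℚ ℂ_[p]
  have hSelN := h1 p ℂ_[p] hne Lg n (finrank K M) K M L₀ M' M₂ N₂ hq1 δ δL P hPhi.irr hδm hδL'
    hTorL hnsp (TSet ιinf ιp S) (fun τ' _ ↦ hspl τ') (α : M₂) α.ne_zero hst hCond hSel
  -- the element
  obtain ⟨s, hs⟩ := IsAlgClosed.exists_pow_nat_eq (((α : M₂) : AlgebraicClosure K)) hp.pos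
  have hsM₂ : s ∉ M₂ := by
    intro hmem
    have e1 : (⟨_, hmem⟩ : M₂) ^ p = (α : M₂) := Subtype.ext hs
    have e2 : (⟨_, hmem⟩ : M₂) ≠ 0 := by
      intro h0
      rw [h0, zero_pow hp.ne_zero] at e1
      exact α.ne_zero e1.symm
    exact hnp ⟨Units.mk0 _ e2, Units.ext (by
      rw [Units.val_pow_eq_pow_val, Units.val_mk0, e1])⟩
  have hgen' : ∀ g : AlgebraicClosure K ≃ₐ[K] AlgebraicClosure K, (∀ x ∈ M₂, g x = x) →
      ψ₁ g = 1 → g s = s := hgen s hs
  have hsN : s ∉ M₁ ⊔ L₀ := Pool.Agent.Helper85.PPB.b_nin p K M₁ J L₀ M₂ hM₂ hJL hcop ψ₁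
    ⟨F₁, hfF₁, hF₁c⟩ hψl hψp s (by rw [hs]; exact (α : M₂).2) hsM₂ hgen' (by rw [hL₀]; exact hgE)
  have ha0 : algebraMap M₂ N₂ (α : M₂) ≠ 0 := (_root_.map_ne_zero _).2 α.ne_zero
  -- the places
  have hplaces : ∀ σ ∈ TSet ιinf ιp S, SplF σ F ∨ NonOm χ₀ σ := by
    intro σ hσ
    rcases hT σ hσ with h | h
    · refine Or.inl (splF_sup (J := J) (E := E) (F₁ := F₁) ?_ (hJL.trans hLF) (hEL.trans hLF)
        hF₁F hJf hEf h)
      rw [hF, hL₀, sup_assoc]
    · exact Or.inr h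
  -- the characters
  have hψ₁F : ∀ g : AlgebraicClosure K ≃ₐ[K] AlgebraicClosure K, (∀ x ∈ F, g x = x) → ψ₁ g = 1 :=
    fun g hg ↦ (hF₁c g).2 fun x hx ↦ hg x (hF₁F hx)
  have hψF : ∀ g : AlgebraicClosure K ≃ₐ[K] AlgebraicClosure K, (∀ x ∈ F, g x = x) → ψ g = 1 :=
    fun g hg ↦ (hcut g).2 fun x hx ↦ hg x (hLF (hEL hx))
  obtain ⟨η, hη⟩ := exists_desc (χ := ψ₁ * ψ) (H := F) fun g hg ↦ by
    rw [MonoidHom.mul_apply, hψ₁F g hg, hψF g hg, one_mul]
  obtain ⟨H, fH, hH⟩ := exists_cutsOut (χ₀ * ψ₁ * ψ) (M ⊔ F) (by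
    intro g hg
    have a1 : χ₀ g = 1 := by
      rw [hχ₀ g, Pool.Agent.Helper13.RL.res_one_iff.2 fun x hx ↦
        hg x ((le_sup_left : M ≤ M ⊔ F) hx), map_one]
    have a2 : ψ₁ g = 1 := hψ₁F g fun x hx ↦ hg x ((le_sup_right : F ≤ M ⊔ F) hx)
    have a3 : ψ g = 1 := hψF g fun x hx ↦ hg x ((le_sup_right : F ≤ M ⊔ F) hx)
    rw [MonoidHom.mul_apply, MonoidHom.mul_apply, a1, a2, a3, one_mul, one_mul])
  have jH := isGalois_of_cutsOut hH
  obtain ⟨χ', hinj, hχ'⟩ := exists_faithful hH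
  have r : ∀ (g : AlgebraicClosure K ≃ₐ[K] AlgebraicClosure K)
      (X : IntermediateField K (AlgebraicClosure K)) [IsGalois K X],
      Restricts (algebraMap X (AlgebraicClosure K)) g (AlgEquiv.restrictNormalHom X g) :=
    fun g X _ x ↦ (AlgEquiv.restrictNormal_commutes g X x).symm
  refine ⟨H, fH, hH, χ', hχ', ?_⟩
  refine h3 p K ιinf ιp Lg S hcl M χM hχM hcM χ₀ hχ₀ δ Φ P hδ hPhi hTor n L₀ F M' N₂
    (fun x ↦ rfl) (fun x ↦ rfl) (fun x ↦ rfl) hLF hn hdF hM' hgM'N hcN hplaces δL hδL'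
    (algebraMap M₂ N₂ ε) (algebraMap M₂ N₂ (α : M₂))
    (hε.map_of_injective (algebraMap M₂ N₂).injective) ha0 s ?_ (by rw [hN₂]; exact hsN) ?_
    hSelN H χ' η hinj ?_ ?_
  · rw [hs]
    rfl
  · intro g g1 g2
    exact hgen' g (fun x hx ↦ g2 x (hM₂N hx)) (hψ₁F g g1)
  · obtain ⟨g, hg, hg1⟩ := hgE
    refine ⟨AlgEquiv.restrictNormalHom F g, fun x hx ↦ ?_, ?_⟩
    · apply Subtype.ext
      rw [AlgEquiv.restrictNormalHom_apply]
      rw [hL₀] at hx
      exact hg _ hx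
    · rw [← hη g _ (r g F), MonoidHom.mul_apply,
        (hcut g).2 fun x hx ↦ hg x ((le_sup_right : E ≤ J ⊔ E) hx), mul_one]
      exact hg1
  · intro g
    rw [← hχ' g _ (r g H), ← hη g _ (r g F), ← hχ₀ g, MonoidHom.mul_apply, MonoidHom.mul_apply,
      MonoidHom.mul_apply, mul_assoc]

end Pool.Agent.Helper74.PW
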